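import Pool.Agent.H49.LAN.All

set_option autoImplicit false

namespace Pool.Agent.Results.MP_ca3cd6_co.LargePrimeFactor

/-- Lander's conjecture holds for the prime `p` when the order is `n = p ^ a * m` with `m ≥ 2` prime to
`p` and to `v`, and `p > 4 ^ (m ^ 2)`. -/
theorem result :
    ∀ (G : Type) [CommGroup G] [Fintype G] [DecidableEq G] (D : Finset G) (lam : ℕ),
      1 < D.card →
      D.card + 1 < Fintype.card G →
      (∀ g : G, g ≠ 1 → ((D ×ˢ D).filter (fun x => x.1 * x.2⁻¹ = g)).card = lam) →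
      ∀ (p a m : ℕ) [Fact p.Prime],
        p ∣ Fintype.card G → 1 ≤ a → 2 ≤ m → ¬ p ∣ m →
        (D.card : ℤ) - (lam : ℤ) = (p : ℤ) ^ a * (m : ℤ) →
        Nat.Coprime m (Fintype.card G) → 4 ^ (m ^ 2) < p →
        ∀ P : Sylow p G, ¬ IsCyclic ↥(P.toSubgroup) :=
  LAN.finD LAN.grp LAN.all_num

end Pool.Agent.Results.MP_ca3cd6_co.LargePrimeFactor
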