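import Pool.Agent.H49.LAN.All

set_option autoImplicit false

namespace Pool.Agent.Results.MP_ca3cd6_co.NonSquareCofactor

/-- If the order is `n = p ^ a * m` with `m` not a square and `p > m ^ 2 + m + 1`, then `p` does not
divide `v`. -/
theorem result :
    ∀ (G : Type) [CommGroup G] [Fintype G] [DecidableEq G] (D : Finset G) (lam : ℕ),
      1 < D.card →
      D.card + 1 < Fintype.card G →
      (∀ g : G, g ≠ 1 → ((D ×ˢ D).filter (fun x => x.1 * x.2⁻¹ = g)).card = lam) →
      ∀ p a m : ℕ, p.Prime → (D.card : ℤ) - (lam : ℤ) = (p : ℤ) ^ a * (m : ℤ) →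
        ¬ IsSquare m → m ^ 2 + m + 1 < p → ¬ p ∣ Fintype.card G :=
  LAN.finA LAN.gra LAN.all_asq LAN.cnj

end Pool.Agent.Results.MP_ca3cd6_co.NonSquareCofactor
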