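import Pool.Agent.H49.LAN.All

set_option autoImplicit false

namespace Pool.Agent.Results.MP_ca3cd6_co.OrderPowerOfThree

/-- Abelian difference sets whose order is a power of three: a cyclic nontrivial Sylow `3`-subgroup
has order exactly three and the parameters lie in one of three explicit families. -/
theorem result :
    ∀ (G : Type) [CommGroup G] [Fintype G] [DecidableEq G] (D : Finset G) (lam : ℕ),
      1 < D.card →
      D.card + 1 < Fintype.card G →
      (∀ g : G, g ≠ 1 → ((D ×ˢ D).filter (fun x => x.1 * x.2⁻¹ = g)).card = lam) →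
      ∀ a : ℕ, 1 ≤ a → (D.card : ℤ) - (lam : ℤ) = (3 : ℤ) ^ a → 3 ∣ Fintype.card G →
        ∀ P : Sylow 3 G, IsCyclic ↥(P.toSubgroup) →
        ¬ 9 ∣ Fintype.card G ∧ ∃ b : ℕ, 1 ≤ b ∧ a = 2 * b + 2 ∧
          (2 * (Fintype.card G : ℤ) = 75 * (3 ^ b) ^ 2 - 3 ∨
            4 * (Fintype.card G : ℤ) = 147 * (3 ^ b) ^ 2 - 3 ∨
            5 * (Fintype.card G : ℤ) = 192 * (3 ^ b) ^ 2 - 3) :=
  LAN.fin3 LAN.grp LAN.all_num LAN.ar3

end Pool.Agent.Results.MP_ca3cd6_co.OrderPowerOfThree
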