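import Pool.Agent.H49.LAN.All

set_option autoImplicit false

namespace Pool.Agent.Results.MP_ca3cd6_co.OrderPowerOfTwo

/-- Lander's conjecture holds when the order is a power of two and `4` divides `v`. -/
theorem result :
    ∀ (G : Type) [CommGroup G] [Fintype G] [DecidableEq G] (D : Finset G) (lam : ℕ),
      1 < D.card →
      D.card + 1 < Fintype.card G →
      (∀ g : G, g ≠ 1 → ((D ×ˢ D).filter (fun x => x.1 * x.2⁻¹ = g)).card = lam) →
      ∀ a : ℕ, 1 ≤ a → (D.card : ℤ) - (lam : ℤ) = (2 : ℤ) ^ a → 4 ∣ Fintype.card G →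
        ∀ P : Sylow 2 G, ¬ IsCyclic ↥(P.toSubgroup) :=
  LAN.fin2 LAN.grp LAN.sqr LAN.all_two

end Pool.Agent.Results.MP_ca3cd6_co.OrderPowerOfTwo
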